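import Pool.Agent.TH167.SH.Irr
import Pool.Agent.K4H28.SP.Nine
import Pool.Agent.K4H28.SP.FourFin

set_option autoImplicit false

/-!
# The reduction of a prime divisor by quadratic transformations which lower the multiplicities
-/

namespace Pool.Agent.K4H51.PTM

open MvPolynomial Pool.Agent.TH167 Pool.Agent.TH167.SH Pool.Agent.W609 Pool.Agent.W609.CR

/-- An irreducible curve at generic points: its class is not special, or it is carried to an
irreducible curve with a reduced class by quadratic transformations which lower the degree and do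
not raise any multiplicity. -/
theorem irr_red {K : Type} [Field K] [CharZero K] {r : ℕ} :
    ∀ (e : ℕ) (P : Fin (r + 4) → Fin 2 → K)
      (_ : AlgebraicIndependent ℚ (fun ij : Fin (r + 4) × Fin 2 => P ij.1 ij.2))
      (w : Fin (r + 4) → ℕ)
      (G : MvPolynomial (Fin 3) K) (_ : Irreducible G) (_ : G.IsHomogeneous e)
      (_ : ∀ j, Ord (aff (P j)) (w j) G),
      ((Module.finrank K ↥(VS (fun j => aff (P j)) w e) : ℤ) = chi e w) ∨
      ∃ (P1 : Fin (r + 4) → Fin 2 → K) (e1 : ℕ) (w1 : Fin (r + 4) → ℕ)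
        (G1 : MvPolynomial (Fin 3) K),
        AlgebraicIndependent ℚ (fun ij : Fin (r + 4) × Fin 2 => P1 ij.1 ij.2) ∧
        Irreducible G1 ∧ G1.IsHomogeneous e1 ∧ (∀ j, Ord (aff (P1 j)) (w1 j) G1) ∧
        Relation.ReflTransGen Quad (e, w) (e1, w1) ∧ Reduced e1 w1 ∧ e1 ≤ e ∧
        (∀ j, w1 j ≤ w j) ∧
        Module.finrank K ↥(VS (fun j => aff (P1 j)) w1 e1) =
          Module.finrank K ↥(VS (fun j => aff (P j)) w e) := by
  classical
  intro e
  induction e using Nat.strong_induction_on with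
  | _ e ih =>
    intro P hP w G hG hGe hord
    have he0 := deg_pos hG hGe
    have hwd : ∀ j, w j ≤ e := fun j => van_le hG.ne_zero hGe (hord j).1
    by_cases hpair : ∀ i j, i ≠ j → w i + w j ≤ e
    · by_cases hred : Reduced e w
      · -- the reduced case
        exact Or.inr ⟨P, e, w, G, hP, hG, hGe, hord, Relation.ReflTransGen.refl, hred, le_rfl,
          fun _ => le_rfl, rfl⟩
      · -- a quadratic transformation
        have hfew0 : Few (∑ j, w j) e w := by
          left
          rw [Finset.filter_false_of_mem fun j _ => not_lt.2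
            (Finset.single_le_sum (fun _ _ => Nat.zero_le _) (Finset.mem_univ j))]
          simp
        obtain ⟨i, hinj, p, -, hlt, hwle⟩ := exists_step hfew0 hred hpair
        obtain ⟨P', hP', hr⟩ := exists_crel hP hinj
        have hdim := hr.dim p
        obtain ⟨G', hG', hGe', hord'⟩ := hr.irr hG hGe hord p.p01 p.p02 p.p12
        have hq : Relation.ReflTransGen Quad (e, w) (cd i e w, wcr e i w) :=
          Relation.ReflTransGen.single ⟨i, hinj, p, rfl⟩
        obtain ⟨c1, c2, c3⟩ := quad_inv hq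
        simp only at c1 c2 c3
        rcases ih (cd i e w) hlt P' hP' (wcr e i w) G' hG' hGe' hord' with h | h
        · left
          rw [hdim, c1] at h
          exact h
        · right
          rw [hdim] at h
          obtain ⟨P1, e1, w1, G1, a1, a2, a3, a4, a5, a6, a7, a8, a9⟩ := h
          exact ⟨P1, e1, w1, G1, a1, a2, a3, a4, hq.trans a5, a6, a7.trans hlt.le,
            fun j => (a8 j).trans (hwle j), a9⟩
    · -- a line
      left
      push Not at hpair
      obtain ⟨a, b, hab, hlt⟩ := hpair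
      rcases pair_irr (inj_of_alg hP) hG hGe hord hab with h | ⟨he1, ha, hb⟩
      · omega
      · subst he1
        have ha1 : w a = 1 := le_antisymm (hwd a) ha
        have hb1 : w b = 1 := le_antisymm (hwd b) hb
        have hz : ∀ l, l ≠ a → l ≠ b → w l = 0 := by
          intro l hla hlb
          by_contra hne
          have h1 : 1 ≤ w l := Nat.one_le_iff_ne_zero.2 hne
          refine line_two hP hG.ne_zero hGe ![a, b, l] (inj_cons hab hla.symm hlb.symm) ?_
          intro k
          fin_cases k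
          · exact van_mono ha (hord a).1
          · exact van_mono hb (hord b).1
          · exact van_mono h1 (hord l).1
        have hwe : w = fun l => if l = a ∨ l = b then 1 else 0 := by
          funext l
          by_cases h : l = a ∨ l = b
          · rw [if_pos h]
            rcases h with h | h
            · rw [h, ha1]
            · rw [h, hb1]
          · rw [if_neg h]
            push Not at h
            exact hz l h.1 h.2
        have hE := exc_line hP hab
        rw [← hwe] at hE
        have hs1 := self_iff.1 hE.self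
        have hs2 := can_iff.1 hE.can
        have h3 := line_k hP hab 1 w 1 le_rfl ha hb (by omega)
        have h4 : sb a b 1 w = fun _ => 0 := by
          funext l
          unfold sb
          by_cases h : l = a ∨ l = b
          · rw [if_pos h]
            rcases h with h | h
            · rw [h, ha1]
            · rw [h, hb1]
          · rw [if_neg h]
            push Not at h
            exact hz l h.1 h.2
        rw [h3, h4, vs_zero]
        have h5 := two_chi 1 w
        rw [hs1, hs2] at h5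
        have h6 : chi 1 w = 1 := by omega
        rw [h6]
        rfl

/-- The `(n + 1)`-th largest value. -/
noncomputable def nth {s : ℕ} (n : ℕ) (w : Fin s → ℕ) : ℕ :=
  sInf {b : ℕ | (Finset.univ.filter fun i => b < w i).card ≤ n}

theorem nth_spec {s : ℕ} (n : ℕ) (w : Fin s → ℕ) :
    (Finset.univ.filter fun i => nth n w < w i).card ≤ n := by
  have hne : {b : ℕ | (Finset.univ.filter fun i => b < w i).card ≤ n}.Nonempty := by
    refine ⟨∑ j, w j, ?_⟩
    change (Finset.univ.filter fun i => ∑ j, w j < w i).card ≤ n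
    rw [Finset.filter_false_of_mem fun j _ => not_lt.2
      (Finset.single_le_sum (fun _ _ => Nat.zero_le _) (Finset.mem_univ j)), Finset.card_empty]
    exact Nat.zero_le _
  exact Nat.sInf_mem hne

theorem nth_le {s : ℕ} {n : ℕ} {w : Fin s → ℕ} {b : ℕ}
    (h : (Finset.univ.filter fun i => b < w i).card ≤ n) : nth n w ≤ b := Nat.sInf_le h

theorem nth_mono {s : ℕ} (n : ℕ) {u w : Fin s → ℕ} (h : ∀ i, u i ≤ w i) : nth n u ≤ nth n w := by
  refine nth_le (le_trans (Finset.card_le_card fun j hj => ?_) (nth_spec n w))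
  rw [Finset.mem_filter] at hj ⊢
  exact ⟨hj.1, lt_of_lt_of_le hj.2 (h j)⟩

theorem nth_anti {s : ℕ} {n n' : ℕ} (h : n ≤ n') (w : Fin s → ℕ) : nth n' w ≤ nth n w :=
  nth_le ((nth_spec n w).trans h)

theorem le_nth_zero {s : ℕ} (w : Fin s → ℕ) (i : Fin s) : w i ≤ nth 0 w := by
  by_contra hcon
  push Not at hcon
  have h1 := nth_spec 0 w
  rw [Nat.le_zero, Finset.card_eq_zero] at h1
  have h2 : i ∈ (Finset.univ.filter fun i => nth 0 w < w i) :=
    Finset.mem_filter.2 ⟨Finset.mem_univ _, hcon⟩
  rw [h1] at h2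
  exact Finset.notMem_empty _ h2

/-- An index with the largest value. -/
theorem exists_max {s : ℕ} (hs : 0 < s) (w : Fin s → ℕ) :
    ∃ i₀, w i₀ = nth 0 w ∧ ∀ j, j ≠ i₀ → w j ≤ nth 1 w := by
  have : Nonempty (Fin s) := ⟨⟨0, hs⟩⟩
  obtain ⟨i₀, hi₀⟩ := Finite.exists_max w
  refine ⟨i₀, le_antisymm (le_nth_zero w i₀) (nth_le ?_), fun j hj => ?_⟩
  · rw [Finset.filter_false_of_mem fun j _ => not_lt.2 (hi₀ j), Finset.card_empty]
  · by_contra hcon
    push Not at hcon
    have h1 := nth_spec 1 w
    have h2 : ({i₀, j} : Finset (Fin s)) ⊆ (Finset.univ.filter fun i => nth 1 w < w i) := by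
      intro x hx
      rw [Finset.mem_insert, Finset.mem_singleton] at hx
      refine Finset.mem_filter.2 ⟨Finset.mem_univ _, ?_⟩
      rcases hx with rfl | rfl
      · exact lt_of_lt_of_le hcon (hi₀ j)
      · exact hcon
    have h3 := Finset.card_le_card h2
    rw [Finset.card_pair hj.symm] at h3
    omega

open Pool.Agent.K4H28.SP (gd)

theorem vs_gd {K : Type} [Field K] [CharZero K] {s : ℕ} {P : Fin s → Fin 2 → K}
    (hP : AlgebraicIndependent ℚ (fun ij : Fin s × Fin 2 => P ij.1 ij.2)) (w : Fin s → ℕ)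
    (d : ℕ) : Module.finrank K ↥(VS (fun j => aff (P j)) w d) = gd w d := by
  rw [vs_eq_forms]
  exact Pool.Agent.K4H28.SP.finrank_gen hP w d

theorem red3_of {s d : ℕ} (hs : 3 ≤ s) {w : Fin s → ℕ} (h : Reduced d w) :
    Pool.Agent.K4H28.SP.Red3 d w := by
  have key : ∀ i j : Fin s, ∃ k, k ≠ i ∧ k ≠ j := by
    intro i j
    by_contra hcon
    push Not at hcon
    have h1 : (Finset.univ : Finset (Fin s)) ⊆ {i, j} := by
      intro k _
      rw [Finset.mem_insert, Finset.mem_singleton]
      by_cases hk : k = i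
      · exact Or.inl hk
      · exact Or.inr (hcon k hk)
    have h2 := Finset.card_le_card h1
    rw [Finset.card_univ, Fintype.card_fin] at h2
    have h3 := Finset.card_le_two (a := i) (b := j)
    omega
  refine ⟨fun i => ?_, fun i j hij => ?_, h⟩
  · obtain ⟨j, hj, -⟩ := key i i
    obtain ⟨k, hk, hk'⟩ := key i j
    have := h i j k hj.symm hk.symm hk'.symm
    omega
  · obtain ⟨k, hk, hk'⟩ := key i j
    have := h i j k hij hk.symm hk'.symm
    omega

/-- The values in decreasing order. -/
theorem exists_anti {s : ℕ} (w : Fin s → ℕ) :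
    ∃ (m : ℕ → ℕ) (σ : Fin s ≃ Fin s), Antitone m ∧ (∀ i : Fin s, m i = w (σ i)) ∧
      ∀ i, s ≤ i → m i = 0 := by
  classical
  obtain ⟨σ, hσ⟩ : ∃ σ : Fin s ≃ Fin s, Antitone (fun i => w (σ i)) := by
    have h := Tuple.monotone_sort (fun i => (OrderDual.toDual (w i) : ℕᵒᵈ))
    exact ⟨Tuple.sort (fun i => (OrderDual.toDual (w i) : ℕᵒᵈ)), fun i j hij => h hij⟩
  refine ⟨fun i => if h : i < s then w (σ ⟨i, h⟩) else 0, σ, fun i j hij => ?_, fun i => ?_,
    fun i hi => ?_⟩
  · change (if h : j < s then w (σ ⟨j, h⟩) else 0) ≤ (if h : i < s then w (σ ⟨i, h⟩) else 0)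
    by_cases hj : j < s
    · rw [dif_pos hj, dif_pos (lt_of_le_of_lt hij hj)]
      exact hσ hij
    · rw [dif_neg hj]
      exact Nat.zero_le _
  · change (if h : (i : ℕ) < s then w (σ ⟨i, h⟩) else 0) = w (σ i)
    rw [dif_pos i.isLt]
  · change (if h : i < s then w (σ ⟨i, h⟩) else 0) = 0
    rw [dif_neg (not_lt.2 hi)]

theorem nth_eq {s : ℕ} {w : Fin s → ℕ} {m : ℕ → ℕ} {σ : Fin s ≃ Fin s} (hm : Antitone m)
    (hw : ∀ i : Fin s, m i = w (σ i)) (hz : ∀ i, s ≤ i → m i = 0) (n : ℕ) : nth n w = m n := by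
  classical
  refine le_antisymm (nth_le ?_) ?_
  · have h1 : (Finset.univ.filter fun i => m n < w i).card ≤ (Finset.range n).card := by
      refine Finset.card_le_card_of_injOn (fun i => ((σ.symm i : Fin s) : ℕ)) (fun i hi => ?_)
        fun i _ j _ hij => σ.symm.injective (Fin.ext hij)
      rw [Finset.mem_coe, Finset.mem_filter] at hi
      rw [Finset.mem_coe, Finset.mem_range]
      by_contra hcon
      have h2 := hm (not_lt.1 hcon)
      have h3 := hw (σ.symm i)
      rw [σ.apply_symm_apply] at h3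
      rw [h3] at h2
      exact absurd hi.2 (not_lt.2 h2)
    rwa [Finset.card_range] at h1
  · by_contra hcon
    push Not at hcon
    have hns : n + 1 ≤ s := by
      by_contra hns
      have := hz n (by omega)
      omega
    have h1 : Finset.univ.map ((Fin.castLEEmb hns).trans σ.toEmbedding) ⊆
        (Finset.univ.filter fun i => nth n w < w i) := by
      intro i hi
      rw [Finset.mem_map] at hi
      obtain ⟨j, -, rfl⟩ := hi
      refine Finset.mem_filter.2 ⟨Finset.mem_univ _, lt_of_lt_of_le hcon ?_⟩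
      change m n ≤ w (σ (Fin.castLE hns j))
      rw [← hw]
      refine hm ?_
      change (j : ℕ) ≤ n
      have := j.isLt
      omega
    have h2 := Finset.card_le_card h1
    rw [Finset.card_map, Finset.card_univ, Fintype.card_fin] at h2
    have h3 := nth_spec n w
    omega

/-- Only the values matter. -/
theorem gd_perm {s d : ℕ} {w : Fin s → ℕ} {m : ℕ → ℕ} {σ : Fin s ≃ Fin s}
    (hw : ∀ i : Fin s, m i = w (σ i)) : gd w d = gd (fun i : Fin s => m i) d := by
  have h1 := Pool.Agent.K4H28.SP.gd_emb (e := (σ : Fin s → Fin s)) (w := w) (d := d) σ.injective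
    (fun j hj => absurd (σ.apply_symm_apply j) (hj _))
  rw [h1]
  congr 1
  funext i
  exact (hw i).symm

theorem sum_perm {s : ℕ} {w : Fin s → ℕ} {m : ℕ → ℕ} {σ : Fin s ≃ Fin s}
    (hw : ∀ i : Fin s, m i = w (σ i)) :
    ∑ i, (w i + 1).choose 2 = ∑ i : Fin s, (m i + 1).choose 2 := by
  rw [← Equiv.sum_comp σ]
  exact Finset.sum_congr rfl fun i _ => by rw [hw]

/-- A lower set of `t` elements. -/
theorem lower_iff {s t : ℕ} {A : Finset (Fin s)} (hA : A.card = t)
    (hl : ∀ i ∈ A, ∀ j, j < i → j ∈ A) (i : Fin s) : i ∈ A ↔ (i : ℕ) < t := by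
  constructor
  · intro hi
    have h1 : Finset.Iic i ⊆ A := by
      intro j hj
      rw [Finset.mem_Iic] at hj
      rcases hj.lt_or_eq with h | h
      · exact hl i hi j h
      · rwa [h]
    have h2 := Finset.card_le_card h1
    rw [Fin.card_Iic] at h2
    omega
  · intro hi
    by_contra hcon
    have h1 : A ⊆ Finset.Iio i := by
      intro j hj
      rw [Finset.mem_Iio]
      by_contra hji
      rcases (not_lt.1 hji).lt_or_eq with h | h
      · exact hcon (hl j hj i h)
      · exact hcon (by rwa [h])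
    have h2 := Finset.card_le_card h1
    rw [Fin.card_Iio] at h2
    omega

/-- The values in decreasing order, those outside of `T` first. -/
theorem exists_anti' {s : ℕ} (w : Fin s → ℕ) {T : Finset (Fin s)}
    (hle : ∀ i ∈ T, ∀ j, j ∉ T → w i ≤ w j) :
    ∃ (m : ℕ → ℕ) (σ : Fin s ≃ Fin s), Antitone m ∧ (∀ i : Fin s, m i = w (σ i)) ∧
      (∀ i, s ≤ i → m i = 0) ∧ ∀ i, σ i ∉ T ↔ (i : ℕ) < Tᶜ.card := by
  classical
  let κ : Fin s → ℕ := fun i => 2 * w i + if i ∈ T then 0 else 1
  obtain ⟨σ, hσ⟩ : ∃ σ : Fin s ≃ Fin s, Antitone (fun i => κ (σ i)) := by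
    have h := Tuple.monotone_sort (fun i => (OrderDual.toDual (κ i) : ℕᵒᵈ))
    exact ⟨Tuple.sort (fun i => (OrderDual.toDual (κ i) : ℕᵒᵈ)), fun i j hij => h hij⟩
  have hσw : Antitone (fun i => w (σ i)) := by
    intro i j hij
    have h1 : 2 * w (σ j) + (if σ j ∈ T then 0 else 1) ≤ 2 * w (σ i) + (if σ i ∈ T then 0 else 1) :=
      hσ hij
    change w (σ j) ≤ w (σ i)
    split_ifs at h1 <;> omega
  refine ⟨fun i => if h : i < s then w (σ ⟨i, h⟩) else 0, σ, fun i j hij => ?_, fun i => ?_,
    fun i hi => ?_, fun i => ?_⟩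
  · change (if h : j < s then w (σ ⟨j, h⟩) else 0) ≤ (if h : i < s then w (σ ⟨i, h⟩) else 0)
    by_cases hj : j < s
    · rw [dif_pos hj, dif_pos (lt_of_le_of_lt hij hj)]
      exact hσw hij
    · rw [dif_neg hj]
      exact Nat.zero_le _
  · change (if h : (i : ℕ) < s then w (σ ⟨i, h⟩) else 0) = w (σ i)
    rw [dif_pos i.isLt]
  · change (if h : i < s then w (σ ⟨i, h⟩) else 0) = 0
    rw [dif_neg (not_lt.2 hi)]
  · have h1 := lower_iff (t := Tᶜ.card) (A := Finset.univ.filter fun i => σ i ∉ T) ?_ ?_ i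
    · rw [← h1, Finset.mem_filter]
      exact ⟨fun h => ⟨Finset.mem_univ _, h⟩, fun h => h.2⟩
    · have h2 : (Finset.univ.filter fun i => σ i ∉ T) = Tᶜ.map σ.symm.toEmbedding := by
        ext j
        rw [Finset.mem_filter, Finset.mem_map]
        constructor
        · rintro ⟨-, h⟩
          exact ⟨σ j, Finset.mem_compl.2 h, σ.symm_apply_apply j⟩
        · rintro ⟨k, hk, rfl⟩
          refine ⟨Finset.mem_univ _, ?_⟩
          rw [Equiv.coe_toEmbedding, σ.apply_symm_apply]
          exact Finset.mem_compl.1 hk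
      rw [h2, Finset.card_map]
    · intro i hi j hji
      rw [Finset.mem_filter] at hi ⊢
      refine ⟨Finset.mem_univ _, fun hj => ?_⟩
      have h1 : 2 * w (σ i) + (if σ i ∈ T then 0 else 1) ≤ 2 * w (σ j) +
        (if σ j ∈ T then 0 else 1) := hσ hji.le
      rw [if_neg hi.2, if_pos hj] at h1
      have h2 := hle _ hj _ hi.2
      omega

/-- All multiplicities but the four largest ones impose independent conditions. -/
theorem four_indep {s d : ℕ} {u : Fin s → ℕ} (hpos : 1 ≤ gd u d) {T : Finset (Fin s)}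
    (hT : 4 ≤ Tᶜ.card) (hle : ∀ i ∈ T, ∀ j, j ∉ T → u i ≤ u j) :
    (gd (Pool.Agent.K4H28.SP.res u T) d : ℤ) = chi d (Pool.Agent.K4H28.SP.res u T) := by
  classical
  obtain ⟨m, σ, hm, hw, hz, hσ⟩ := exists_anti' u hle
  obtain ⟨t, ht⟩ : ∃ t, t = Tᶜ.card := ⟨_, rfl⟩
  rw [← ht] at hT hσ
  have hts : t ≤ s := by
    rw [ht]
    have := Finset.card_le_univ Tᶜ
    rwa [Fintype.card_fin] at this
  have h1 := (Pool.Agent.K4H28.SP.gd_four (s := s) (d := d) hm
    (by rw [← gd_perm (d := d) hw]; exact hpos)).1 t hT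
  let e : Fin (s - t) → Fin s := fun k => σ ⟨(k : ℕ) + t, by have := k.isLt; omega⟩
  have he : Function.Injective e := by
    intro a b hab
    have h2 := σ.injective hab
    have h3 : (a : ℕ) + t = (b : ℕ) + t := congrArg (fun x : Fin s => (x : ℕ)) h2
    exact Fin.ext (by omega)
  have heT : ∀ k, e k ∈ T := by
    intro k
    by_contra hcon
    have h2 := (hσ ⟨(k : ℕ) + t, by have := k.isLt; omega⟩).1 hcon
    change (k : ℕ) + t < t at h2
    omega
  have hval : ∀ k, Pool.Agent.K4H28.SP.res u T (e k) = m ((k : ℕ) + t) := by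
    intro k
    unfold Pool.Agent.K4H28.SP.res
    rw [if_pos (heT k)]
    exact (hw ⟨(k : ℕ) + t, by have := k.isLt; omega⟩).symm
  have hout : ∀ j, (∀ k, e k ≠ j) → Pool.Agent.K4H28.SP.res u T j = 0 := by
    intro j hj
    refine Pool.Agent.K4H28.SP.res_not fun hjT => ?_
    have h2 : ¬ ((σ.symm j : Fin s) : ℕ) < t := by
      rw [← hσ, not_not, σ.apply_symm_apply]
      exact hjT
    have h3 := (σ.symm j).isLt
    refine hj ⟨((σ.symm j : Fin s) : ℕ) - t, by omega⟩ ?_
    change σ _ = j
    have h4 : (⟨((σ.symm j : Fin s) : ℕ) - t + t, by omega⟩ : Fin s) = σ.symm j :=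
      Fin.ext (by change ((σ.symm j : Fin s) : ℕ) - t + t = _; omega)
    rw [h4, σ.apply_symm_apply]
  have h2 := Pool.Agent.K4H28.SP.gd_emb (w := Pool.Agent.K4H28.SP.res u T) (d := d) he hout
  have h3 : ∑ k : Fin (s - t), (m (k + t) + 1).choose 2 =
      ∑ j, (Pool.Agent.K4H28.SP.res u T j + 1).choose 2 := by
    refine Finset.sum_of_injOn e he.injOn (fun _ _ => Finset.mem_coe.2 (Finset.mem_univ _))
      (fun j _ hj => ?_) (fun k _ => ?_)
    · rw [hout j fun k hk => hj ⟨k, Finset.mem_coe.2 (Finset.mem_univ _), hk⟩]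
      rfl
    · rw [hval]
  rw [chi_cast, h2, ← h3]
  have h4 : (fun i : Fin (s - t) => Pool.Agent.K4H28.SP.res u T (e i)) =
      fun i : Fin (s - t) => m ((i : ℕ) + t) :=
    funext hval
  rw [h4]
  omega

/-- The bounds for a reduced class. -/
theorem bounds {s d : ℕ} (hs : 3 ≤ s) {u : Fin s → ℕ} (h : Reduced d u) (hpos : 1 ≤ gd u d)
    (hne : (gd u d : ℤ) ≠ chi d u) :
    gd u d ≤ (nth 0 u - 1) * (nth 9 u - 1) ∧
    4 * ((gd u d : ℤ) - chi d u) ≤ (4 * (nth 0 u).choose 2 +
      ((nth 1 u - 1) ^ 2 + (nth 2 u - 1) ^ 2 + (nth 3 u - 1) ^ 2) : ℕ) ∧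
    ∀ (T : Finset (Fin s)) (b : ℕ), (∀ i, i ∉ T → u i ≤ b) →
      ((gd (Pool.Agent.K4H28.SP.res u T) d : ℤ) ≠
          max (chi d (Pool.Agent.K4H28.SP.res u T)) 0 ∨
        gd u d ≤ (nth 0 u - 1) * (b - 1)) := by
  classical
  have hchi : chi d u = ((d + 2).choose 2 : ℤ) - ((∑ j, (u j + 1).choose 2 : ℕ) : ℤ) := chi_cast d u
  refine ⟨?_, ?_, fun T b hb => ?_⟩
  · have h1 := Pool.Agent.K4H28.SP.gd_upper9 (red3_of hs h)
      (T := Finset.univ.filter fun i => nth 9 u < u i) (nth_spec 9 u)
      (A := nth 0 u) (b := nth 9 u) (fun j _ => le_nth_zero u j) (fun j hj => by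
        by_contra hcon
        push Not at hcon
        exact hj (Finset.mem_filter.2 ⟨Finset.mem_univ _, hcon⟩)) (nth_anti (Nat.zero_le 9) u)
    rcases h1 with h1 | h1
    · exfalso
      apply hne
      rw [hchi]
      omega
    · exact h1
  · obtain ⟨m, σ, hm, hw, hz⟩ := exists_anti u
    have h1 := gd_perm (d := d) hw
    have h2 := (Pool.Agent.K4H28.SP.gd_four (s := s) (d := d) hm (by rw [← h1]; exact hpos)).2
    rw [← h1, ← sum_perm hw] at h2
    rw [hchi, nth_eq hm hw hz, nth_eq hm hw hz, nth_eq hm hw hz, nth_eq hm hw hz]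
    push_cast
    have h3 : ((4 * (gd u d + ∑ i, (u i + 1).choose 2) : ℕ) : ℤ) ≤
        ((4 * (d + 2).choose 2 + 4 * (m 0).choose 2 +
        ((m 1 - 1) ^ 2 + ((m 2 - 1) ^ 2 + (m 3 - 1) ^ 2)) : ℕ) : ℤ) := by exact_mod_cast h2
    push_cast at h3
    linarith
  · by_contra hcon
    push Not at hcon
    obtain ⟨hc1, hc2⟩ := hcon
    obtain ⟨b', hb'⟩ : ∃ b', b' = min b (nth 0 u) := ⟨_, rfl⟩
    have h2 : (nth 0 u - 1) * (b' - 1) ≤ (nth 0 u - 1) * (b - 1) :=
      Nat.mul_le_mul_left _ (by omega)
    have h1 := Pool.Agent.K4H28.SP.gd_upperT (m := u) (d := d) (T := T) (A := nth 0 u) (b := b')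
      (fun j _ => le_nth_zero u j) (fun j hj => by
        rw [hb']
        exact le_min (hb j hj) (le_nth_zero u j)) (by rw [hb']; exact min_le_right _ _) (by
        have h3 : ∑ i ∈ T, (u i + 1).choose 2 =
            ∑ i, (Pool.Agent.K4H28.SP.res u T i + 1).choose 2 := by
          rw [← Finset.sum_subset (Finset.subset_univ T)
            (f := fun i => (Pool.Agent.K4H28.SP.res u T i + 1).choose 2) fun i _ hi => by
            rw [Pool.Agent.K4H28.SP.res_not hi]
            rfl]
          refine Finset.sum_congr rfl fun i hi => ?_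
          unfold Pool.Agent.K4H28.SP.res
          rw [if_pos hi]
        rw [h3]
        have h4 := chi_cast d (Pool.Agent.K4H28.SP.res u T)
        rcases max_choice (chi d (Pool.Agent.K4H28.SP.res u T)) 0 with h5 | h5
        · left
          rw [h5] at hc1
          omega
        · right
          rw [h5] at hc1
          have h6 : gd (Pool.Agent.K4H28.SP.res u T) d = 0 := by exact_mod_cast hc1
          rw [h6]
          exact Nat.zero_le _)
    rcases h1 with h1 | h1
    · apply hne
      rw [hchi]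
      omega
    · omega

end Pool.Agent.K4H51.PTM
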