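import Pool.Agent.K4H51.PTM.Two
import Pool.Agent.K4H28.SPB.DropOne

set_option autoImplicit false

/-!
# Minimal prime divisors with `h¹ ≠ 0`
-/

namespace Pool.Agent.K4H51.PTM

open MvPolynomial Pool.Agent.TH167 Pool.Agent.TH167.SH Pool.Agent.W609 Pool.Agent.W609.CR
open Pool.Agent.K4H28.SP (gd)

section

open Module Pool.Agent.H248R5 Pool.Agent.H248R6 Pool.Agent.K4H28.SP

/-- Leaving out one point. -/
theorem drop_eq {s d : ℕ} {m : Fin s → ℕ} (i₀ : Fin s) :
    ∃ x, x ≤ (m i₀ + 1).choose 2 ∧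
      gd (Function.update m i₀ 0) d + x = gd m d + (m i₀ + 1).choose 2 := by
  classical
  have e1 : insert i₀.succ (sucs (Finset.univ \ {i₀})) = sucs (Finset.univ : Finset (Fin s)) := by
    have h1 : (Finset.univ : Finset (Fin s)) = insert i₀ (Finset.univ \ {i₀}) := by
      rw [← Finset.erase_eq, Finset.insert_erase (Finset.mem_univ i₀)]
    conv_rhs => rw [h1]
    unfold sucs
    rw [Finset.map_insert]
    rfl
  have hP := gpt_ind (s + 1)
  have hq : (0 : Fin (s + 1)) ∉ sucs (Finset.univ \ {i₀}) := zero_sucs _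
  have ha : i₀.succ ∉ sucs (Finset.univ \ {i₀}) := fun h =>
    (Finset.mem_sdiff.1 (succ_sucs.1 h)).2 (Finset.mem_singleton_self _)
  have haq := Fin.succ_ne_zero i₀
  have e3 := sum_insert_eq (m := ext0 m) (d := d) hP hq ha haq
  have e5 : ext0 m i₀.succ = m i₀ := rfl
  rw [e1, gd_res, gd_res, res_univ, res_sdiff_singleton, e5] at e3
  refine ⟨_, ?_, e3⟩
  refine (Finset.sum_le_sum fun k _ => finrank_II_le).trans ?_
  have h6 := Finset.sum_range_succ' (fun k : ℕ => k) (m i₀)
  have h7 : ∑ k ∈ Finset.range (m i₀ + 1), k = (m i₀ + 1).choose 2 := by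
    rw [Finset.sum_range_id, Nat.choose_two_right]
  rw [h7] at h6
  exact (h6.symm : _ = _).le

end

/-- `h¹` of the generic class. -/
noncomputable def h1 {s : ℕ} (d : ℕ) (m : Fin s → ℕ) : ℤ := (gd m d : ℤ) - chi d m

theorem sum_update {s : ℕ} (m : Fin s → ℕ) (i₀ : Fin s) :
    ∑ i, (m i + 1).choose 2 =
      (m i₀ + 1).choose 2 + ∑ i, (Function.update m i₀ 0 i + 1).choose 2 := by
  classical
  rw [Pool.Agent.K4H28.SP.sum_split_one i₀, Pool.Agent.K4H28.SP.sum_update_zero]

theorem chi_update {s d : ℕ} (m : Fin s → ℕ) (i₀ : Fin s) :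
    chi d (Function.update m i₀ 0) = chi d m + ((m i₀ + 1).choose 2 : ℕ) := by
  rw [chi_cast, chi_cast, sum_update m i₀]
  push_cast
  ring

theorem gd_le_update {s d : ℕ} (m : Fin s → ℕ) (i₀ : Fin s) :
    gd m d ≤ gd (Function.update m i₀ 0) d := by
  obtain ⟨x, hx, h⟩ := drop_eq (d := d) (m := m) i₀
  omega

theorem h1_update_le {s d : ℕ} (m : Fin s → ℕ) (i₀ : Fin s) :
    h1 d (Function.update m i₀ 0) ≤ h1 d m := by
  obtain ⟨x, hx, h⟩ := drop_eq (d := d) (m := m) i₀
  unfold h1
  rw [chi_update]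
  omega

theorem h1_le_update {s d : ℕ} (m : Fin s → ℕ) (i₀ : Fin s) (hne : 1 ≤ gd m d) :
    h1 d m ≤ h1 d (Function.update m i₀ 0) + ((m i₀).choose 2 : ℕ) := by
  have h := Pool.Agent.K4H28.SP.gd_drop i₀ hne
  have h2 := sum_update m i₀
  unfold h1
  rw [chi_update]
  have h3 := chi_cast d m
  omega

theorem h1_nonneg {s d : ℕ} (m : Fin s → ℕ) : 0 ≤ h1 d m := by
  have h := Pool.Agent.K4H28.SP.gd_ge (m := m) (d := d)
  unfold h1
  rw [chi_cast]
  omega

theorem h1_res_le {s d : ℕ} (m : Fin s → ℕ) (S : Finset (Fin s)) :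
    h1 d (Pool.Agent.K4H28.SP.res m Sᶜ) ≤ h1 d m := by
  classical
  induction S using Finset.induction_on with
  | empty =>
    rw [Finset.compl_empty, Pool.Agent.K4H28.SP.res_univ]
  | insert a S ha ih =>
    refine le_trans (le_of_eq ?_) ((h1_update_le (Pool.Agent.K4H28.SP.res m Sᶜ) a).trans ih)
    congr 1
    funext i
    unfold Pool.Agent.K4H28.SP.res
    by_cases h : i = a
    · subst h
      rw [Function.update_self, if_neg]
      rw [Finset.mem_compl, not_not]
      exact Finset.mem_insert_self _ _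
    · rw [Function.update_of_ne h]
      by_cases h2 : i ∈ S
      · rw [if_neg, if_neg]
        · rw [Finset.mem_compl, not_not]
          exact h2
        · rw [Finset.mem_compl, not_not]
          exact Finset.mem_insert_of_mem h2
      · rw [if_pos, if_pos]
        · rw [Finset.mem_compl]
          exact h2
        · rw [Finset.mem_compl, Finset.mem_insert]
          rintro (h3 | h3)
          · exact h h3
          · exact h2 h3

/-- Leaving out one point, with a smaller number of points. -/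
theorem gd_succAbove {r d : ℕ} (m : Fin (r + 1) → ℕ) (i₀ : Fin (r + 1)) :
    gd (fun i => m (i₀.succAbove i)) d = gd (Function.update m i₀ 0) d := by
  classical
  have h1 := Pool.Agent.K4H28.SP.gd_emb (e := i₀.succAbove) (w := Function.update m i₀ 0) (d := d)
    Fin.succAbove_right_injective (fun j hj => by
      by_cases h : j = i₀
      · rw [h, Function.update_self]
      · obtain ⟨k, hk⟩ := Fin.exists_succAbove_eq h
        exact absurd hk (hj k))
  rw [h1]
  congr 1
  funext i
  rw [Function.update_of_ne (Fin.succAbove_ne i₀ i)]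

theorem chi_succAbove {r d : ℕ} (m : Fin (r + 1) → ℕ) (i₀ : Fin (r + 1)) :
    chi d (fun i => m (i₀.succAbove i)) = chi d (Function.update m i₀ 0) := by
  rw [chi_cast, chi_cast, Fin.sum_univ_succAbove _ i₀, Function.update_self]
  have h0 : (0 + 1).choose 2 = 0 := rfl
  rw [h0, zero_add]
  congr 2
  refine Finset.sum_congr rfl fun i _ => ?_
  rw [Function.update_of_ne (Fin.succAbove_ne i₀ i)]

theorem h1_succAbove {r d : ℕ} (m : Fin (r + 1) → ℕ) (i₀ : Fin (r + 1)) :
    h1 d (fun i => m (i₀.succAbove i)) = h1 d (Function.update m i₀ 0) := by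
  unfold h1
  rw [gd_succAbove, chi_succAbove]

/-- The minimal prime divisors with `h¹ ≠ 0`. -/
theorem exists_min {K : Type} [Field K] [CharZero K] :
    ∀ (r : ℕ) (P : Fin (r + 4) → Fin 2 → K)
      (_ : AlgebraicIndependent ℚ (fun ij : Fin (r + 4) × Fin 2 => P ij.1 ij.2))
      (e : ℕ) (w : Fin (r + 4) → ℕ)
      (G : MvPolynomial (Fin 3) K) (_ : Irreducible G) (_ : G.IsHomogeneous e)
      (_ : ∀ j, Ord (aff (P j)) (w j) G) (_ : 0 < h1 e w),
      ∃ (t : ℕ) (ι : Fin t → Fin (r + 4)) (P1 : Fin t → Fin 2 → K) (e1 : ℕ) (w1 : Fin t → ℕ)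
        (G1 : MvPolynomial (Fin 3) K), Function.Injective ι ∧
        AlgebraicIndependent ℚ (fun ij : Fin t × Fin 2 => P1 ij.1 ij.2) ∧
        Irreducible G1 ∧ G1.IsHomogeneous e1 ∧ (∀ j, Ord (aff (P1 j)) (w1 j) G1) ∧
        Reduced e1 w1 ∧ e1 ≤ e ∧ (∀ j, w1 j ≤ w (ι j)) ∧ 4 ≤ t ∧
        0 < h1 e1 w1 ∧ h1 e1 w1 ≤ h1 e w ∧ gd w e ≤ gd w1 e1 ∧
        ∀ i, h1 e1 (Function.update w1 i 0) = 0 := by
  classical
  intro r
  induction r with
  | zero =>
    intro P hP e w G hG hGe hord hh
    rcases irr_red e P hP w G hG hGe hord with c1 | ⟨Q, e1, w1, G1, a1, a2, a3, a4, a5, a6, a7, a8, a9⟩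
    · rw [vs_gd hP] at c1
      unfold h1 at hh
      omega
    · rw [vs_gd a1, vs_gd hP] at a9
      obtain ⟨q1, q2, q3⟩ := quad_inv a5
      simp only at q1 q2 q3
      have hgd : 1 ≤ gd w1 e1 := by
        rw [← vs_gd a1]
        have hfin := vs_fin (fun j => aff (Q j)) w1 e1
        have hmem : G1 ∈ VS (fun j => aff (Q j)) w1 e1 :=
          (mem_VS _ _ _ _).2 ⟨a3, fun j => (a4 j).1⟩
        exact Module.finrank_pos_iff.2 ⟨⟨G1, hmem⟩, 0,
          fun h7 => a2.ne_zero (congrArg Subtype.val h7)⟩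
      exfalso
      obtain ⟨b1, -, -⟩ := bounds (s := 0 + 4) (by omega) a6 hgd (by
        unfold h1 at hh
        rw [a9, q1]
        omega)
      have h9 : nth 9 w1 = 0 := by
        refine Nat.le_zero.1 (nth_le ?_)
        refine (Finset.card_le_univ _).trans ?_
        rw [Fintype.card_fin]
        omega
      rw [h9] at b1
      omega
  | succ r ih =>
    intro P hP e w G hG hGe hord hh
    rcases irr_red e P hP w G hG hGe hord with c1 | ⟨Q, e1, w1, G1, a1, a2, a3, a4, a5, a6, a7, a8, a9⟩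
    · rw [vs_gd hP] at c1
      unfold h1 at hh
      omega
    · rw [vs_gd a1, vs_gd hP] at a9
      obtain ⟨q1, q2, q3⟩ := quad_inv a5
      simp only at q1 q2 q3
      have hh1 : h1 e1 w1 = h1 e w := by
        unfold h1
        rw [a9, q1]
      by_cases hmin : ∀ i, h1 e1 (Function.update w1 i 0) = 0
      · exact ⟨r + 1 + 4, id, Q, e1, w1, G1, Function.injective_id, a1, a2, a3, a4, a6, a7, a8,
          by omega, by rw [hh1]; exact hh, hh1.le, a9.ge, hmin⟩
      · push Not at hmin
        obtain ⟨i, hi⟩ := hmin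
        have hi' : 0 < h1 e1 (Function.update w1 i 0) :=
          lt_of_le_of_ne (h1_nonneg _) (Ne.symm hi)
        have hs := h1_succAbove (d := e1) w1 i
        have hQ' : AlgebraicIndependent ℚ
            (fun ij : Fin (r + 4) × Fin 2 => Q (i.succAbove ij.1) ij.2) :=
          a1.comp (fun ij : Fin (r + 4) × Fin 2 => (i.succAbove ij.1, ij.2)) (by
            rintro ⟨x, y⟩ ⟨x', y'⟩ h
            rw [Prod.mk.injEq] at h
            exact Prod.ext (Fin.succAbove_right_injective h.1) h.2)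
        obtain ⟨t, ι, P2, e2, w2, G2, k1, k2, k3, k4, k5, k6, k7, k8, k9, k10, k11, k12, k13⟩ :=
          ih (fun j => Q (i.succAbove j)) hQ' e1 (fun j => w1 (i.succAbove j)) G1 a2 a3
            (fun j => a4 _) (by rw [hs]; exact hi')
        refine ⟨t, fun j => i.succAbove (ι j), P2, e2, w2, G2,
          Fin.succAbove_right_injective.comp k1, k2, k3, k4, k5, k6, k7.trans a7,
          fun j => (k8 j).trans (a8 _), k9, k10, ?_, ?_, k13⟩
        · refine k11.trans ?_
          rw [hs, ← hh1]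
          exact h1_update_le _ _
        · rw [gd_succAbove] at k12
          rw [← a9]
          exact (gd_le_update w1 i).trans k12

end Pool.Agent.K4H51.PTM
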