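import Pool.Agent.K4H51.PTM.Main
import Pool.Agent.K4H28.SPB.Two

set_option autoImplicit false

/-!
# The superabundance of a non-empty system
-/

namespace Pool.Agent.K4H51.PTM

open MvPolynomial Pool.Agent.TH167 Pool.Agent.TH167.SH Pool.Agent.W609 Pool.Agent.W609.CR
open Pool.Agent.K4H28.SP (gd)

/-- The superabundance of a non-empty system is at most `binom m₁ 2`. -/
theorem super_le {s d : ℕ} {u : Fin s → ℕ} (hpos : 1 ≤ gd u d) :
    (gd u d : ℤ) - chi d u ≤ ((nth 0 u).choose 2 : ℕ) := by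
  classical
  have hchi : chi d u = ((d + 2).choose 2 : ℤ) - ((∑ j, (u j + 1).choose 2 : ℕ) : ℤ) := chi_cast d u
  obtain ⟨m, σ, hm, hw, hz⟩ := exists_anti u
  have h1 := gd_perm (d := d) hw
  have h2 := (Pool.Agent.K4H28.SP.gd_two_largest (s := s) (d := d) hm
    (by rw [← h1]; exact hpos)).2
  rw [← h1, ← sum_perm hw] at h2
  rw [hchi, nth_eq hm hw hz]
  have h3 : ((gd u d + ∑ i, (u i + 1).choose 2 : ℕ) : ℤ) ≤
      (((d + 2).choose 2 + (m 0).choose 2 : ℕ) : ℤ) := by exact_mod_cast h2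
  push_cast at h3 ⊢
  linarith

/-- All multiplicities but the two largest ones impose independent conditions. -/
theorem two_indep {s d : ℕ} {u : Fin s → ℕ} (hpos : 1 ≤ gd u d) {T : Finset (Fin s)}
    (hT : 2 ≤ Tᶜ.card) (hle : ∀ i ∈ T, ∀ j, j ∉ T → u i ≤ u j) :
    (gd (Pool.Agent.K4H28.SP.res u T) d : ℤ) = chi d (Pool.Agent.K4H28.SP.res u T) := by
  classical
  obtain ⟨m, σ, hm, hw, hz, hσ⟩ := exists_anti' u hle
  obtain ⟨t, ht⟩ : ∃ t, t = Tᶜ.card := ⟨_, rfl⟩
  rw [← ht] at hT hσ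
  have hts : t ≤ s := by
    rw [ht]
    have := Finset.card_le_univ Tᶜ
    rwa [Fintype.card_fin] at this
  have h1 := (Pool.Agent.K4H28.SP.gd_two_largest (s := s) (d := d) hm
    (by rw [← gd_perm (d := d) hw]; exact hpos)).1 t hT
  let e : Fin (s - t) → Fin s := fun k => σ ⟨(k : ℕ) + t, by have := k.isLt; omega⟩
  have he : Function.Injective e := by
    intro a b hab
    have h2 := σ.injective hab
    have h3 : (a : ℕ) + t = (b : ℕ) + t := congrArg (fun x : Fin s => (x : ℕ)) h2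
    exact Fin.ext (by omega)
  have heT : ∀ k, e k ∈ T := by
    intro k
    by_contra hcon
    have h2 := (hσ ⟨(k : ℕ) + t, by have := k.isLt; omega⟩).1 hcon
    change (k : ℕ) + t < t at h2
    omega
  have hval : ∀ k, Pool.Agent.K4H28.SP.res u T (e k) = m ((k : ℕ) + t) := by
    intro k
    unfold Pool.Agent.K4H28.SP.res
    rw [if_pos (heT k)]
    exact (hw ⟨(k : ℕ) + t, by have := k.isLt; omega⟩).symm
  have hout : ∀ j, (∀ k, e k ≠ j) → Pool.Agent.K4H28.SP.res u T j = 0 := by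
    intro j hj
    refine Pool.Agent.K4H28.SP.res_not fun hjT => ?_
    have h2 : ¬ ((σ.symm j : Fin s) : ℕ) < t := by
      rw [← hσ, not_not, σ.apply_symm_apply]
      exact hjT
    have h3 := (σ.symm j).isLt
    refine hj ⟨((σ.symm j : Fin s) : ℕ) - t, by omega⟩ ?_
    change σ _ = j
    have h4 : (⟨((σ.symm j : Fin s) : ℕ) - t + t, by omega⟩ : Fin s) = σ.symm j :=
      Fin.ext (by change ((σ.symm j : Fin s) : ℕ) - t + t = _; omega)
    rw [h4, σ.apply_symm_apply]
  have h2 := Pool.Agent.K4H28.SP.gd_emb (w := Pool.Agent.K4H28.SP.res u T) (d := d) he hout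
  have h3 : ∑ k : Fin (s - t), (m (k + t) + 1).choose 2 =
      ∑ j, (Pool.Agent.K4H28.SP.res u T j + 1).choose 2 := by
    refine Finset.sum_of_injOn e he.injOn (fun _ _ => Finset.mem_coe.2 (Finset.mem_univ _))
      (fun j _ hj => ?_) (fun k _ => ?_)
    · rw [hout j fun k hk => hj ⟨k, Finset.mem_coe.2 (Finset.mem_univ _), hk⟩]
      rfl
    · rw [hval]
  rw [chi_cast, h2, ← h3]
  have h4 : (fun i : Fin (s - t) => Pool.Agent.K4H28.SP.res u T (e i)) =
      fun i : Fin (s - t) => m ((i : ℕ) + t) :=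
    funext hval
  rw [h4]
  omega

end Pool.Agent.K4H51.PTM
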